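import Pool.Agent.K6.H14.EY.TT
import Pool.Agent.K6.H14.EX.ULT
import Pool.Agent.K6.H14.EX.FAC
import Pool.Agent.K6.H14.EX.HAA
import Pool.Agent.K6.H14.EX.CUT
import Pool.Agent.K6.H14.EX.KAP
import Pool.Agent.K6.H14.EX.G1
import Pool.Agent.K6.H14.EX.G2
import Pool.Agent.K6.H14.EX.G3

/-!
# MP_02fda4_an, Q1: a II_1 factor with the Haagerup property and an existential embedding in a
II_1 factor with property (T)

The group `G` is the branch group with property (T) of `Pool.Agent.Helper278.TB` (automorphisms of a
regular rooted tree), `H` is its subgroup of the elements which act only on the first letters of the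
words (the elements of finite depth).  The truncations `G → H` are homomorphisms, which are
eventually the identity at every element of `H` and separate the points of `G`.  With Kaplansky's
density theorem they give trace preserving embeddings of `L(G)` in `L(H)^U` over `L(H)`.

The pieces were proved by helper13 (Kaplansky density), helper44 (property (T) of `L(G)`), helper85
(functional calculus in the ultrapower), helper37 (Haagerup property of `L(H)`), helper49 (factors,
ultrapower, the groups) and helper36 (conjugacy classes and truncations in the tree group); the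
approximation of `L(G)` by `L(H)` and the assembly are by helper14.  The property (T) of the tree
group and the tracial ultrapower are by helper278, the basic facts on `L(G)` by R283 and H667R2
(starting files).
-/

set_option autoImplicit false

namespace Pool.Agent.Results.MP_02fda4_an.LocallyFiniteSubgroup

open Pool.Agent.K6.H14.EY
open Pool.Agent.K6.H14.EX (tvn lamT iotaT t_FAC t_HAA t_KAP t_CUT t_EXT t_ULT t_G1 t_G2 t_G3
  tau_iotaT)
open Filter Topology

theorem existentialSubgroup {G : Type} [Group G] {H : Subgroup G} {p : ℕ → G →* H}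
    (h1 : ∀ h : H, ∀ᶠ n in atTop, p n (h : G) = h)
    (h2 : ∀ g : G, g ≠ 1 → ∀ᶠ n in atTop, p n g ≠ 1) {U : Ultrafilter ℕ} (hU : ∀ n, {n} ∉ U) :
    IsExistentialSubgroup H U := by
  have hle : (U : Filter ℕ) ≤ atTop := by
    rw [← Nat.cofinite_eq_atTop]
    rcases Ultrafilter.le_cofinite_or_eq_pure U with h | ⟨a, h⟩
    · exact h
    · exfalso
      apply hU a
      rw [h]
      exact Ultrafilter.mem_pure.2 rfl
  let β : G →* Filter.Germ (U : Filter ℕ) H :=
    { toFun := fun g => ((fun n => p n g : ℕ → H) : Filter.Germ (U : Filter ℕ) H)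
      map_one' := by
        have : (fun n => p n (1 : G) : ℕ → H) = 1 := by
          funext n
          exact map_one (p n)
        rw [this]
        rfl
      map_mul' := fun g g' => by
        have : (fun n => p n (g * g') : ℕ → H) = (fun n => p n g) * (fun n => p n g') := by
          funext n
          exact map_mul (p n) g g'
        rw [this]
        rfl }
  refine ⟨β, ?_, ?_⟩
  · rw [injective_iff_map_eq_one]
    intro g hg
    by_contra hne
    have e1 : ∀ᶠ n in (U : Filter ℕ), p n g = 1 := by
      have e2 : ((fun n => p n g : ℕ → H) : Filter.Germ (U : Filter ℕ) H) =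
        ((fun _ => 1 : ℕ → H) : Filter.Germ (U : Filter ℕ) H) := hg
      exact Filter.Germ.coe_eq.1 e2
    have e3 : ∀ᶠ n in (U : Filter ℕ), p n g ≠ 1 := (h2 g hne).filter_mono hle
    obtain ⟨n, hn, hn'⟩ := (e1.and e3).exists
    exact hn' hn
  · intro h
    show ((fun n => p n (h : G) : ℕ → H) : Filter.Germ (U : Filter ℕ) H) =
      ((fun _ => h : ℕ → H) : Filter.Germ (U : Filter ℕ) H)
    exact Filter.Germ.coe_eq.2 ((h1 h).filter_mono hle)

theorem locallyFinite {H : Type} [Group H] {F : ℕ → Subgroup H} (hF : Monotone F)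
    (h1 : ∀ n, Finite (F n)) (h2 : ∀ h, ∃ n, h ∈ F n) : IsLocallyFinite H := by
  intro S hS
  obtain ⟨n, hn⟩ : ∃ n, S ⊆ F n := by
    refine Set.Finite.induction_on (motive := fun S _ => ∃ n, S ⊆ F n) S hS ⟨0, by simp⟩ ?_
    rintro a S - - ⟨n, hn⟩
    obtain ⟨m, hm⟩ := h2 a
    refine ⟨max m n, ?_⟩
    rw [Set.insert_subset_iff]
    exact ⟨hF (le_max_left m n) hm, hn.trans (hF (le_max_right m n))⟩
  exact Set.Finite.subset (Set.toFinite (F n : Set H)) ((Subgroup.closure_le _).2 hn)

/-- **Q1 has the answer yes.**  There are a group `G`, a subgroup `H`, tracial von Neumann algebras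
`(N, τ)` and `(M, σ)` and a trace preserving embedding `ι : N → M` such that
* `N` is a II_1 factor with the Haagerup property, `M` is a II_1 factor with property (T), and `ι` is
  existential, for every nonprincipal ultrafilter on the natural numbers;
* `N = L(H)` and `M = L(G)` with the canonical unitaries `u h` and `v g`, and `ι (u h) = v h`;
* `G` is countable with infinite conjugacy classes and property (T), `H` is locally finite with
  infinite conjugacy classes, and the inclusion of `H` in `G` is existential, for every nonprincipal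
  ultrafilter on the natural numbers. -/
theorem result : ∃ (G : Type) (_ : Group G) (H : Subgroup G) (N : Type) (_ : NormedRing N)
    (_ : StarRing N) (_ : CStarRing N) (_ : NormedAlgebra ℂ N) (_ : StarModule ℂ N) (M : Type)
    (_ : NormedRing M) (_ : StarRing M) (_ : CStarRing M) (_ : NormedAlgebra ℂ M)
    (_ : StarModule ℂ M) (τ : N → ℂ) (σ : M → ℂ) (u : H → N) (v : G → M) (ι : N →⋆ₐ[ℂ] M),
    (IsTracialVN τ ∧ IsIIOneFactor N ∧ HasHaagerup τ) ∧
    (IsTracialVN σ ∧ IsIIOneFactor M ∧ HasPropertyT σ) ∧
    (∀ x, σ (ι x) = τ x) ∧ (∀ U : Ultrafilter ℕ, (∀ n, {n} ∉ U) → IsExistential τ σ ι U) ∧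
    (IsGroupVN τ u ∧ IsGroupVN σ v ∧ ∀ h, ι (u h) = v h) ∧
    (Countable G ∧ IsIcc G ∧ KazhdanT G) ∧ (IsIcc H ∧ IsLocallyFinite H) ∧
    ∀ U : Ultrafilter ℕ, (∀ n, {n} ∉ U) → IsExistentialSubgroup H U := by
  obtain ⟨G, _, H, F, p, h1, h2, h3, h4, h5, h6, h7, h8, h9, h10⟩ := t_G2 t_G1 t_G3
  have hG : Infinite G := Infinite.of_injective (fun h : H => (h : G)) Subtype.val_injective
  obtain ⟨θ, hθ, hι⟩ := t_EXT t_KAP t_CUT G H p h9 h10
  exact ⟨G, _, H, (tvn H).E, inferInstance, inferInstance, inferInstance, inferInstance,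
    inferInstance, (tvn G).E, inferInstance, inferInstance, inferInstance, inferInstance,
    inferInstance, tr (tvn H), tr (tvn G), lamT, lamT, iotaT H,
    ⟨isTracialVN _, isIIOneFactor (t_FAC H h4), hasHaagerup (t_HAA H F h6 h7 h8)⟩,
    ⟨isTracialVN _, isIIOneFactor (t_FAC G h3), hasPropertyT t_KAP h5⟩, tau_iotaT H,
    fun U hU => isExistential (t_ULT (tvn G) (tvn H) (iotaT H) θ hθ hι U hU),
    ⟨isGroupVN t_KAP H, isGroupVN t_KAP G, Pool.Agent.K6.H14.EX.Ext.iotaT_lamT H⟩,
    ⟨h1, h3, kazhdanT h5⟩, ⟨h4, locallyFinite h6 h7 h8⟩,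
    fun U hU => existentialSubgroup h9 h10 hU⟩

end Pool.Agent.Results.MP_02fda4_an.LocallyFiniteSubgroup
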